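import Pool.Agent.Helper97.LPP.ProbExit

/-! LPP-7: the weak law of large numbers, lower side, from the exit inequality. -/

open MeasureTheory ProbabilityTheory Filter Topology
open scoped ENNReal

namespace Helper97.LPP

/-! ### real analysis -/

theorem h38_far {a b z κ : ℝ} (hz : 0 < z) (hz1 : z < 1) (hκ : 0 < κ)
    (hcrit : a / z ^ 2 = b / (1 - z) ^ 2) :
    ∃ η > 0, η < z ∧ ∃ δ > 0, ∃ θ₀ > 0, θ₀ < η ∧ ∀ θ, 0 < θ → θ < θ₀ →
      -(a / z + b / (1 - z)) + 2 * δ + a / (z - η) + b / (1 - z + η - θ) +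
        κ * (1 / (z - θ) - 1 / (z - η)) ≤ -δ := by
  have h1z : 0 < 1 - z := by linarith
  have hH : Tendsto (fun η : ℝ => a / (z * (z - η)) - b / ((1 - z) * (1 - z + η)) -
      κ / (z * (z - η))) (𝓝 0) (𝓝 (a / (z * (z - 0)) - b / ((1 - z) * (1 - z + 0)) -
      κ / (z * (z - 0)))) := by
    have : ContinuousAt (fun η : ℝ => a / (z * (z - η)) - b / ((1 - z) * (1 - z + η)) -
      κ / (z * (z - η))) 0 := by
      have h1 : z * (z - 0) ≠ 0 := by simpa using hz.ne'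
      have h2 : (1 - z) * (1 - z + 0) ≠ 0 := by simpa using h1z.ne'
      have c1 : ContinuousAt (fun η : ℝ => z * (z - η)) 0 := by fun_prop
      have c2 : ContinuousAt (fun η : ℝ => (1 - z) * (1 - z + η)) 0 := by fun_prop
      exact ((continuousAt_const.div c1 h1).sub (continuousAt_const.div c2 h2)).sub
        (continuousAt_const.div c1 h1)
    exact this
  have hneg : a / (z * (z - 0)) - b / ((1 - z) * (1 - z + 0)) - κ / (z * (z - 0)) < 0 := by
    rw [sub_zero, add_zero, ← sq, ← sq, hcrit, sub_self, zero_sub]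
    exact neg_neg_of_pos (by positivity)
  have ev1 := hH.eventually_lt_const hneg
  have ev2 : ∀ᶠ η : ℝ in 𝓝 0, η < z := eventually_lt_nhds hz
  have ev3 : ∀ᶠ η : ℝ in 𝓝[>] 0, 0 < η := eventually_mem_nhdsWithin
  obtain ⟨η, ⟨hη1, hη2⟩, hη3⟩ :=
    (((ev1.and ev2).filter_mono nhdsWithin_le_nhds).and ev3).exists
  have hzη : 0 < z - η := by linarith
  have hzη' : 0 < 1 - z + η := by linarith
  have hG : -(a / z + b / (1 - z)) + a / (z - η) + b / (1 - z + η) +
      κ * (1 / z - 1 / (z - η)) < 0 := by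
    have e : -(a / z + b / (1 - z)) + a / (z - η) + b / (1 - z + η) +
      κ * (1 / z - 1 / (z - η)) = η * (a / (z * (z - η)) - b / ((1 - z) * (1 - z + η)) -
      κ / (z * (z - η))) := by
      field_simp
      ring
    rw [e]
    exact mul_neg_of_pos_of_neg hη3 hη1
  set G := -(a / z + b / (1 - z)) + a / (z - η) + b / (1 - z + η) +
      κ * (1 / z - 1 / (z - η)) with hGdef
  have hΦ : Tendsto (fun θ : ℝ => -(a / z + b / (1 - z)) + a / (z - η) + b / (1 - z + η - θ) +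
      κ * (1 / (z - θ) - 1 / (z - η))) (𝓝 0) (𝓝 (-(a / z + b / (1 - z)) + a / (z - η) +
        b / (1 - z + η - 0) + κ * (1 / (z - 0) - 1 / (z - η)))) := by
    have : ContinuousAt (fun θ : ℝ => -(a / z + b / (1 - z)) + a / (z - η) +
        b / (1 - z + η - θ) + κ * (1 / (z - θ) - 1 / (z - η))) 0 := by
      have h1 : (1 - z + η - 0) ≠ 0 := by simpa using hzη'.ne'
      have h2 : z - 0 ≠ 0 := by simpa using hz.ne'
      exact (continuousAt_const.add (continuousAt_const.div (by fun_prop) h1)).add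
        (continuousAt_const.mul ((continuousAt_const.div (by fun_prop) h2).sub
          continuousAt_const))
    exact this
  rw [sub_zero, sub_zero, ← hGdef] at hΦ
  have ev4 := hΦ.eventually_lt_const (show G < G / 4 * 3 by linarith)
  rw [Metric.eventually_nhds_iff] at ev4
  obtain ⟨r, hr, hr2⟩ := ev4
  refine ⟨η, hη3, hη2, -G / 4, by linarith, min r (η / 2), by positivity,
    lt_of_le_of_lt (min_le_right _ _) (by linarith), ?_⟩
  intro θ hθ hθ2
  have h5 : dist θ 0 < r := by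
    rw [Real.dist_eq, sub_zero, abs_of_pos hθ]
    exact lt_of_lt_of_le hθ2 (min_le_left _ _)
  have h6 := hr2 h5
  linarith

theorem h38_exp {a b κ g A B D ε' δ N m n k : ℝ} (hAB : A ≤ B) (hB : 0 ≤ B)
    (hD : 0 ≤ D) (hN : 0 ≤ N) (hm : m ≤ a * N) (hn : n ≤ b * N)
    (hk : κ * N ≤ k)
    (hmain : -g + 2 * ε' + a * B + b * D + κ * (A - B) ≤ -δ) :
    -(g - 2 * ε') * N + (k + 1) * A + (m - k + 1) * B + (n + 1) * D ≤
      -δ * N + (A + B + D) := by
  have h1 : (k - κ * N) * (A - B) ≤ 0 :=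
    mul_nonpos_of_nonneg_of_nonpos (by linarith) (by linarith)
  have h2 : 0 ≤ (a * N - m) * B := mul_nonneg (by linarith) hB
  have h3 : 0 ≤ (b * N - n) * D := mul_nonneg (by linarith) hD
  have h4 := mul_le_mul_of_nonneg_right hmain hN
  linarith

theorem h38_pow_le {z θ : ℝ} (hθz : θ < z) (hz : 0 < z) (k : ℕ) :
    (z / (z - θ)) ^ k ≤ Real.exp (k * (θ * (1 / (z - θ)))) := by
  have h1 : 0 < z - θ := by linarith
  have h2 : z / (z - θ) ≤ Real.exp (θ * (1 / (z - θ))) := by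
    have := Real.add_one_le_exp (θ * (1 / (z - θ)))
    refine le_trans (le_of_eq ?_) this
    field_simp
    ring
  calc (z / (z - θ)) ^ k ≤ (Real.exp (θ * (1 / (z - θ)))) ^ k :=
        pow_le_pow_left₀ (by positivity) h2 k
    _ = _ := by rw [← Real.exp_nat_mul]

theorem h38_hC_le {z w : ℝ} (hz : 0 < z) (hw : 0 < w) : hC z w ≤ (w - z) * (1 / z) := by
  unfold hC
  refine le_trans (Real.log_le_sub_one_of_pos (by positivity)) (le_of_eq ?_)
  field_simp

theorem h38_hR_le {z w : ℝ} (hz : z < 1) (hw : w < 1) : hR z w ≤ (w - z) * (1 / (1 - w)) := by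
  unfold hR
  have h1 : 0 < 1 - z := by linarith
  have h2 : 0 < 1 - w := by linarith
  refine le_trans (Real.log_le_sub_one_of_pos (by positivity)) (le_of_eq ?_)
  field_simp
  ring

variable {Ω : Type*} [MeasurableSpace Ω] {P : Measure Ω} {X : ℕ × ℕ → Ω → ℝ}

/-- one term of the horizontal sum -/
theorem h38_term_h
    (hU : ∀ z w : ℝ, 0 < z → z ≤ w → w < 1 → ∀ m n : ℕ, emom P X (w - z) (0, 0) (m, n) ≤
      ENNReal.ofReal (Real.exp ((m + 1) * hC z w + (n + 1) * hR z w)))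
    {a b z κ η δ θ g ε' Y : ℝ} {N m n k : ℕ} (hθ : 0 < θ) (hθη : θ < η) (hηz : η < z)
    (hz1 : z < 1) (hm : (m : ℝ) ≤ a * N) (hn : (n : ℝ) ≤ b * N) (hk : κ * N ≤ k)
    (hkm : k ≤ m) (hY : Y = (g - 2 * ε') * N)
    (hmain : -g + 2 * ε' + a / (z - η) + b / (1 - z + η - θ) +
        κ * (1 / (z - θ) - 1 / (z - η)) ≤ -δ) :
    ENNReal.ofReal (Real.exp (-(θ * Y)) * (z / (z - θ)) ^ (k + 1)) *
      emom P X θ (0, 0) (m - k, n) ≤
    ENNReal.ofReal (Real.exp (θ * (-δ * N + (1 / (z - θ) + 1 / (z - η) +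
      1 / (1 - z + η - θ))))) := by
  have hz : 0 < z := by linarith
  have h1 : 0 < z - η := by linarith
  have h2 : 0 < 1 - z + η - θ := by linarith
  have h3 : 0 < z - θ := by linarith
  have hem := hU (z - η) (z - η + θ) h1 (by linarith) (by linarith) (m - k) n
  rw [show z - η + θ - (z - η) = θ by ring] at hem
  refine le_trans (mul_le_mul_right hem _) ?_
  rw [← ENNReal.ofReal_mul (by positivity)]
  apply ENNReal.ofReal_le_ofReal
  have h4 := h38_pow_le (θ := θ) (z := z) (by linarith) hz (k + 1)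
  have h5 := h38_hC_le (z := z - η) (w := z - η + θ) h1 (by linarith)
  have h6 := h38_hR_le (z := z - η) (w := z - η + θ) (by linarith) (by linarith)
  rw [show z - η + θ - (z - η) = θ by ring] at h5 h6
  rw [show 1 - (z - η + θ) = 1 - z + η - θ by ring] at h6
  calc Real.exp (-(θ * Y)) * (z / (z - θ)) ^ (k + 1) *
        Real.exp ((((m - k : ℕ) : ℝ) + 1) * hC (z - η) (z - η + θ) +
          (n + 1) * hR (z - η) (z - η + θ))
      ≤ Real.exp (-(θ * Y)) * Real.exp (((k + 1 : ℕ) : ℝ) * (θ * (1 / (z - θ)))) *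
        Real.exp ((((m - k : ℕ) : ℝ) + 1) * (θ * (1 / (z - η))) +
          (n + 1) * (θ * (1 / (1 - z + η - θ)))) := by
        gcongr
    _ = Real.exp (θ * (-(g - 2 * ε') * N + ((k : ℝ) + 1) * (1 / (z - θ)) +
          ((m : ℝ) - k + 1) * (1 / (z - η)) + (n + 1) * (1 / (1 - z + η - θ)))) := by
        rw [← Real.exp_add, ← Real.exp_add]
        congr 1
        rw [Nat.cast_sub hkm, hY]
        push_cast
        ring
    _ ≤ _ := by
        apply Real.exp_le_exp.2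
        apply mul_le_mul_of_nonneg_left _ hθ.le
        have h7 : 1 / (z - θ) ≤ 1 / (z - η) := one_div_le_one_div_of_le h1 (by linarith)
        apply h38_exp h7 (by positivity) (by positivity) (Nat.cast_nonneg N) hm hn hk
        rw [mul_one_div, mul_one_div]
        exact hmain

/-- one term of the vertical sum -/
theorem h38_term_v
    (hU : ∀ z w : ℝ, 0 < z → z ≤ w → w < 1 → ∀ m n : ℕ, emom P X (w - z) (0, 0) (m, n) ≤
      ENNReal.ofReal (Real.exp ((m + 1) * hC z w + (n + 1) * hR z w)))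
    {a b z κ η δ θ g ε' Y : ℝ} {N m n k : ℕ} (hθ : 0 < θ) (hθη : θ < η) (hηz : η < z)
    (hz1 : z < 1) (hm : (m : ℝ) ≤ a * N) (hn : (n : ℝ) ≤ b * N) (hk : κ * N ≤ k)
    (hkm : k ≤ m) (hY : Y = (g - 2 * ε') * N)
    (hmain : -g + 2 * ε' + a / (z - η) + b / (1 - z + η - θ) +
        κ * (1 / (z - θ) - 1 / (z - η)) ≤ -δ) :
    ENNReal.ofReal (Real.exp (-(θ * Y)) * (z / (z - θ)) ^ (k + 1)) *
      emom P X θ (0, 0) (n, m - k) ≤
    ENNReal.ofReal (Real.exp (θ * (-δ * N + (1 / (z - θ) + 1 / (z - η) +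
      1 / (1 - z + η - θ))))) := by
  have hz : 0 < z := by linarith
  have h1 : 0 < z - η := by linarith
  have h2 : 0 < 1 - z + η - θ := by linarith
  have h3 : 0 < z - θ := by linarith
  have hem := hU (1 - z + η - θ) (1 - z + η) h2 (by linarith) (by linarith) n (m - k)
  rw [show 1 - z + η - (1 - z + η - θ) = θ by ring] at hem
  refine le_trans (mul_le_mul_right hem _) ?_
  rw [← ENNReal.ofReal_mul (by positivity)]
  apply ENNReal.ofReal_le_ofReal
  have h4 := h38_pow_le (θ := θ) (z := z) (by linarith) hz (k + 1)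
  have h5 := h38_hC_le (z := 1 - z + η - θ) (w := 1 - z + η) h2 (by linarith)
  have h6 := h38_hR_le (z := 1 - z + η - θ) (w := 1 - z + η) (by linarith) (by linarith)
  rw [show 1 - z + η - (1 - z + η - θ) = θ by ring] at h5 h6
  rw [show 1 - (1 - z + η) = z - η by ring] at h6
  calc Real.exp (-(θ * Y)) * (z / (z - θ)) ^ (k + 1) *
        Real.exp (((n : ℝ) + 1) * hC (1 - z + η - θ) (1 - z + η) +
          (((m - k : ℕ) : ℝ) + 1) * hR (1 - z + η - θ) (1 - z + η))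
      ≤ Real.exp (-(θ * Y)) * Real.exp (((k + 1 : ℕ) : ℝ) * (θ * (1 / (z - θ)))) *
        Real.exp (((n : ℝ) + 1) * (θ * (1 / (1 - z + η - θ))) +
          (((m - k : ℕ) : ℝ) + 1) * (θ * (1 / (z - η)))) := by
        gcongr
    _ = Real.exp (θ * (-(g - 2 * ε') * N + ((k : ℝ) + 1) * (1 / (z - θ)) +
          ((m : ℝ) - k + 1) * (1 / (z - η)) + (n + 1) * (1 / (1 - z + η - θ)))) := by
        rw [← Real.exp_add, ← Real.exp_add]
        congr 1
        rw [Nat.cast_sub hkm, hY]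
        push_cast
        ring
    _ ≤ _ := by
        apply Real.exp_le_exp.2
        apply mul_le_mul_of_nonneg_left _ hθ.le
        have h7 : 1 / (z - θ) ≤ 1 / (z - η) := one_div_le_one_div_of_le h1 (by linarith)
        apply h38_exp h7 (by positivity) (by positivity) (Nat.cast_nonneg N) hm hn hk
        rw [mul_one_div, mul_one_div]
        exact hmain


theorem h38_lim {c : ℝ} (hc : 0 < c) (A B D : ℝ) :
    Tendsto (fun N : ℕ => ENNReal.ofReal ((A * N + B) * Real.exp (c * (-(N : ℝ)) + D)))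
      atTop (𝓝 0) := by
  have h1 : Tendsto (fun N : ℕ => c * (N : ℝ)) atTop atTop :=
    tendsto_natCast_atTop_atTop.const_mul_atTop hc
  have h2 := (Real.tendsto_pow_mul_exp_neg_atTop_nhds_zero 1).comp h1
  have h3 := (Real.tendsto_pow_mul_exp_neg_atTop_nhds_zero 0).comp h1
  have h4 := ((h2.const_mul (A / c * Real.exp D)).add (h3.const_mul (B * Real.exp D)))
  have h5 : Tendsto (fun N : ℕ => (A * N + B) * Real.exp (c * (-(N : ℝ)) + D)) atTop (𝓝 0) := by
    refine (h4.congr ?_).trans (by simp)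
    intro N
    simp only [Function.comp, pow_one, pow_zero, one_mul]
    rw [Real.exp_add, show c * (-(N : ℝ)) = -(c * N) by ring]
    field_simp
  have h6 := (ENNReal.continuous_ofReal.tendsto 0).comp h5
  rw [ENNReal.ofReal_zero] at h6
  exact h6

theorem h38_edge {a z s ε' y : ℝ} {N m : ℕ} (hz : 0 < z) (hs : 0 < s)
    (hm : a * N ≤ m + 1) (hy : y = (a / z - ε') * N) (hse : a / z - a / (z + s) ≤ ε' / 2) :
    Real.exp (s * y) * (z / (z + s)) ^ (m + 1) ≤ Real.exp (s * (-(ε' / 2) * N)) := by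
  have h1 : 0 < z + s := by linarith
  have h2 : z / (z + s) ≤ Real.exp (-(s * (1 / (z + s)))) := by
    have := Real.add_one_le_exp (-(s * (1 / (z + s))))
    refine le_trans (le_of_eq ?_) this
    field_simp
    ring
  calc Real.exp (s * y) * (z / (z + s)) ^ (m + 1)
      ≤ Real.exp (s * y) * (Real.exp (-(s * (1 / (z + s))))) ^ (m + 1) := by
        gcongr
    _ = Real.exp (s * (y - ((m : ℝ) + 1) * (1 / (z + s)))) := by
        rw [← Real.exp_nat_mul, ← Real.exp_add]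
        congr 1
        push_cast
        ring
    _ ≤ _ := by
        apply Real.exp_le_exp.2
        apply mul_le_mul_of_nonneg_left _ hs.le
        have h3 : 0 ≤ ((m : ℝ) + 1 - a * N) * (1 / (z + s)) :=
          mul_nonneg (by linarith) (by positivity)
        have h4 := mul_le_mul_of_nonneg_right hse (Nat.cast_nonneg (α := ℝ) N)
        rw [hy]
        have h5 : a * N * (1 / (z + s)) = a / (z + s) * N := by ring
        linarith

theorem h38_near {z θ κ ε c' : ℝ} {N k₀ : ℕ} (hz : 0 < z) (hθ : 0 < θ) (hθz : θ < z)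
    (hk : (k₀ : ℝ) ≤ κ * N + 1) (hc : κ * (1 / (z - θ)) + ε ≤ c') :
    Real.exp (-(θ * (c' * N))) * (z / (z - θ)) ^ k₀ ≤
      Real.exp (θ * (-ε * N + 1 / (z - θ))) := by
  have h1 : 0 < z - θ := by linarith
  calc Real.exp (-(θ * (c' * N))) * (z / (z - θ)) ^ k₀
      ≤ Real.exp (-(θ * (c' * N))) * Real.exp (k₀ * (θ * (1 / (z - θ)))) := by
        gcongr
        exact h38_pow_le hθz hz k₀
    _ = Real.exp (θ * (-c' * N + k₀ * (1 / (z - θ)))) := by
        rw [← Real.exp_add]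
        congr 1
        ring
    _ ≤ _ := by
        apply Real.exp_le_exp.2
        apply mul_le_mul_of_nonneg_left _ hθ.le
        have h2 : 0 ≤ (κ * N + 1 - k₀) * (1 / (z - θ)) :=
          mul_nonneg (by linarith) (by positivity)
        have h4 := mul_le_mul_of_nonneg_right hc (Nat.cast_nonneg (α := ℝ) N)
        linarith

theorem h38_small_s {a z ε' : ℝ} (hz : 0 < z) (hε : 0 < ε') :
    ∃ s₀ > 0, ∀ s, 0 < s → s < s₀ → a / z - a / (z + s) ≤ ε' / 2 := by
  have : ContinuousAt (fun s : ℝ => a / z - a / (z + s)) 0 := by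
    have h1 : z + 0 ≠ 0 := by simpa using hz.ne'
    have c1 : ContinuousAt (fun s : ℝ => z + s) 0 := by fun_prop
    exact continuousAt_const.sub (continuousAt_const.div c1 h1)
  have h2 : Tendsto (fun s : ℝ => a / z - a / (z + s)) (𝓝 0) (𝓝 (a / z - a / (z + 0))) := this
  rw [add_zero, sub_self] at h2
  have h3 := h2.eventually_lt_const (show (0 : ℝ) < ε' / 2 by linarith)
  rw [Metric.eventually_nhds_iff] at h3
  obtain ⟨r, hr, hr2⟩ := h3
  refine ⟨r, hr, fun s hs hs2 => ?_⟩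
  have h5 : dist s 0 < r := by
    rw [Real.dist_eq, sub_zero, abs_of_pos hs]
    exact hs2
  exact (hr2 h5).le

theorem h38_sum {f : ℕ → ℝ≥0∞} {k₀ m : ℕ} {M A : ℝ} (hM : 0 ≤ M) (hA : (m : ℝ) + 1 ≤ A)
    (hf : ∀ k, k₀ ≤ k → k ≤ m → f k ≤ ENNReal.ofReal M) :
    ∑ k ∈ Finset.Ico k₀ (m + 1), f k ≤ ENNReal.ofReal (A * M) := by
  calc ∑ k ∈ Finset.Ico k₀ (m + 1), f k ≤ (Finset.Ico k₀ (m + 1)).card • ENNReal.ofReal M := by
        apply Finset.sum_le_card_nsmul
        intro k hk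
        rw [Finset.mem_Ico] at hk
        exact hf k hk.1 (by omega)
    _ ≤ (m + 1) • ENNReal.ofReal M := by
        apply nsmul_le_nsmul_left (by positivity)
        rw [Nat.card_Ico]
        omega
    _ = ENNReal.ofReal (((m + 1 : ℕ) : ℝ) * M) := by
        rw [nsmul_eq_mul, ENNReal.ofReal_mul (by positivity), ENNReal.ofReal_natCast]
    _ ≤ _ := by
        apply ENNReal.ofReal_le_ofReal
        apply mul_le_mul_of_nonneg_right _ hM
        push_cast
        exact hA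

theorem h38_ceil_le {x : ℝ} (hx : 0 ≤ x) : ((⌈x⌉₊ - 1 : ℕ) : ℝ) ≤ x := by
  rcases Nat.eq_zero_or_pos ⌈x⌉₊ with h | h
  · rw [h]; simpa using hx
  · have := Nat.ceil_lt_add_one hx
    rw [Nat.cast_sub h]
    push_cast
    linarith

theorem h38_le_ceil (x : ℝ) : x ≤ ((⌈x⌉₊ - 1 : ℕ) : ℝ) + 1 := by
  have h1 := Nat.le_ceil x
  have h2 : (⌈x⌉₊ : ℝ) ≤ ((⌈x⌉₊ - 1 + 1 : ℕ) : ℝ) := by
    exact_mod_cast (by omega : ⌈x⌉₊ ≤ ⌈x⌉₊ - 1 + 1)
  push_cast at h2
  linarith

theorem h38_weak_lln_of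
    (hU : ∀ z w : ℝ, 0 < z → z ≤ w → w < 1 → ∀ m n : ℕ, emom P X (w - z) (0, 0) (m, n) ≤
      ENNReal.ofReal (Real.exp ((m + 1) * hC z w + (n + 1) * hR z w)))
    (hE : ∀ z s θ : ℝ, 0 < s → 0 < θ → θ < z → z + θ < 1 → ∀ (m n k₀ : ℕ) (y₁ y₂ c : ℝ),
      P {ω | lp (fun w => X w ω) (0, 0) (m, n) ≤ y₁ + y₂ - c} ≤
      ENNReal.ofReal (Real.exp (s * y₁) * (z / (z + s)) ^ (m + 1)) +
      ENNReal.ofReal (Real.exp (s * y₂) * ((1 - z) / (1 - z + s)) ^ (n + 1)) +
      ∑ k ∈ Finset.Ico k₀ (m + 1),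
        ENNReal.ofReal (Real.exp (-(θ * (y₁ + y₂))) * (z / (z - θ)) ^ (k + 1)) *
          emom P X θ (0, 0) (m - k, n) +
      ∑ k ∈ Finset.Ico k₀ (n + 1),
        ENNReal.ofReal (Real.exp (-(θ * (y₁ + y₂))) * ((1 - z) / (1 - z - θ)) ^ (k + 1)) *
          emom P X θ (0, 0) (m, n - k) +
      ENNReal.ofReal (Real.exp (-(θ * c)) * (z / (z - θ)) ^ k₀) +
      ENNReal.ofReal (Real.exp (-(θ * c)) * ((1 - z) / (1 - z - θ)) ^ k₀))
    {a b : ℝ} (ha : 0 < a) (hb : 0 < b) {ε : ℝ} (hε : 0 < ε) :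
    Tendsto (fun N : ℕ => P {ω | lp (fun w => X w ω) (0, 0) (pt a b N) ≤ (shp a b - ε) * N})
      atTop (𝓝 0) := by
  -- the critical parameter
  have hsa : 0 < √a := Real.sqrt_pos.2 ha
  have hsb : 0 < √b := Real.sqrt_pos.2 hb
  have hab : 0 < √a + √b := by positivity
  obtain ⟨z, hz⟩ : ∃ z, z = √a / (√a + √b) := ⟨_, rfl⟩
  have h1z : 1 - z = √b / (√a + √b) := by rw [hz]; field_simp; ring
  have hz0 : 0 < z := by rw [hz]; positivity
  have h1z0 : 0 < 1 - z := by rw [h1z]; positivity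
  have hz1 : z < 1 := by linarith
  have hsqa : √a ^ 2 = a := Real.sq_sqrt ha.le
  have hsqb : √b ^ 2 = b := Real.sq_sqrt hb.le
  have hcrit : a / z ^ 2 = b / (1 - z) ^ 2 := by
    rw [h1z, hz, div_pow, div_pow, hsqa, hsqb]
    field_simp
  have hg : a / z + b / (1 - z) = shp a b := by
    rw [h1z, hz, shp]
    have e1 : a / (√a / (√a + √b)) = √a * (√a + √b) := by
      rw [div_div_eq_mul_div, div_eq_iff hsa.ne']
      nlinarith [hsqa]
    have e2 : b / (√b / (√a + √b)) = √b * (√a + √b) := by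
      rw [div_div_eq_mul_div, div_eq_iff hsb.ne']
      nlinarith [hsqb]
    rw [e1, e2]
    ring
  -- the constants
  obtain ⟨κ, hκ⟩ : ∃ κ, κ = min z (1 - z) * ε / 8 := ⟨_, rfl⟩
  have hκ0 : 0 < κ := by rw [hκ]; have := lt_min hz0 h1z0; positivity
  have hκz : κ ≤ z * ε / 8 := by
    rw [hκ]; have := min_le_left z (1 - z); gcongr
  have hκz' : κ ≤ (1 - z) * ε / 8 := by
    rw [hκ]; have := min_le_right z (1 - z); gcongr
  obtain ⟨η₁, hη₁, hη₁z, δ₁, hδ₁, θ₁, hθ₁, hθη₁, hmain₁⟩ := h38_far hz0 hz1 hκ0 hcrit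
  have hcrit' : b / (1 - z) ^ 2 = a / (1 - (1 - z)) ^ 2 := by
    rw [sub_sub_cancel]; exact hcrit.symm
  obtain ⟨η₂, hη₂, hη₂z, δ₂, hδ₂, θ₂, hθ₂, hθη₂, hmain₂⟩ :=
    h38_far h1z0 (by linarith : 1 - z < 1) hκ0 hcrit'
  obtain ⟨ε', hε'⟩ : ∃ ε', ε' = min (min δ₁ δ₂) (ε / 8) := ⟨_, rfl⟩
  have hε'0 : 0 < ε' := by rw [hε']; positivity
  have hε'1 : ε' ≤ δ₁ := by rw [hε']; exact (min_le_left _ _).trans (min_le_left _ _)
  have hε'2 : ε' ≤ δ₂ := by rw [hε']; exact (min_le_left _ _).trans (min_le_right _ _)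
  have hε'3 : ε' ≤ ε / 8 := by rw [hε']; exact min_le_right _ _
  obtain ⟨θ, hθ⟩ : ∃ θ, θ = min (min θ₁ θ₂) (min z (1 - z)) / 2 := ⟨_, rfl⟩
  have hmin0 : 0 < min (min θ₁ θ₂) (min z (1 - z)) :=
    lt_min (lt_min hθ₁ hθ₂) (lt_min hz0 h1z0)
  have hθ0 : 0 < θ := by rw [hθ]; positivity
  have hθlt : 2 * θ = min (min θ₁ θ₂) (min z (1 - z)) := by rw [hθ]; ring
  have hθa : 2 * θ ≤ θ₁ := by
    rw [hθlt]; exact (min_le_left _ _).trans (min_le_left _ _)
  have hθb : 2 * θ ≤ θ₂ := by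
    rw [hθlt]; exact (min_le_left _ _).trans (min_le_right _ _)
  have hθc : 2 * θ ≤ z := by
    rw [hθlt]; exact (min_le_right _ _).trans (min_le_left _ _)
  have hθd : 2 * θ ≤ 1 - z := by
    rw [hθlt]; exact (min_le_right _ _).trans (min_le_right _ _)
  obtain ⟨s₁, hs₁, hs₁'⟩ := h38_small_s (a := a) hz0 hε'0
  obtain ⟨s₂, hs₂, hs₂'⟩ := h38_small_s (a := b) h1z0 hε'0
  obtain ⟨s, hs⟩ : ∃ s, s = min s₁ s₂ / 2 := ⟨_, rfl⟩
  have hs0 : 0 < s := by rw [hs]; have := lt_min hs₁ hs₂; positivity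
  have hsa1 : s < s₁ := by
    have h1 := lt_min hs₁ hs₂
    have h2 := min_le_left s₁ s₂
    rw [hs]; linarith
  have hsa2 : s < s₂ := by
    have h1 := lt_min hs₁ hs₂
    have h2 := min_le_right s₁ s₂
    rw [hs]; linarith
  have hm1 := hmain₁ θ hθ0 (by linarith)
  have hm2 := hmain₂ θ hθ0 (by linarith)
  -- near terms
  have hn1 : κ * (1 / (z - θ)) + ε / 2 ≤ ε - 2 * ε' := by
    have h1 : 0 < z - θ := by linarith
    have h2 : κ * (1 / (z - θ)) ≤ ε / 4 := by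
      rw [mul_one_div, div_le_iff₀ h1]
      have := mul_le_mul_of_nonneg_left (show z / 2 ≤ z - θ by linarith)
        (show (0 : ℝ) ≤ ε / 4 by linarith)
      linarith
    linarith
  have hn2 : κ * (1 / (1 - z - θ)) + ε / 2 ≤ ε - 2 * ε' := by
    have h1 : 0 < 1 - z - θ := by linarith
    have h2 : κ * (1 / (1 - z - θ)) ≤ ε / 4 := by
      rw [mul_one_div, div_le_iff₀ h1]
      have := mul_le_mul_of_nonneg_left (show (1 - z) / 2 ≤ 1 - z - θ by linarith)
        (show (0 : ℝ) ≤ ε / 4 by linarith)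
      linarith
    linarith
  -- the bound
  obtain ⟨C₁, hC₁⟩ : ∃ C₁, C₁ = 1 / (z - θ) + 1 / (z - η₁) + 1 / (1 - z + η₁ - θ) := ⟨_, rfl⟩
  obtain ⟨C₂, hC₂⟩ : ∃ C₂, C₂ = 1 / (1 - z - θ) + 1 / (1 - z - η₂) +
    1 / (1 - (1 - z) + η₂ - θ) := ⟨_, rfl⟩
  have hlim : Tendsto (fun N : ℕ =>
      ENNReal.ofReal ((0 * N + 1) * Real.exp (s * (ε' / 2) * (-(N : ℝ)) + 0)) +
      ENNReal.ofReal ((0 * N + 1) * Real.exp (s * (ε' / 2) * (-(N : ℝ)) + 0)) +
      ENNReal.ofReal ((a * N + 1) * Real.exp (θ * δ₁ * (-(N : ℝ)) + θ * C₁)) +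
      ENNReal.ofReal ((b * N + 1) * Real.exp (θ * δ₂ * (-(N : ℝ)) + θ * C₂)) +
      ENNReal.ofReal ((0 * N + 1) * Real.exp (θ * (ε / 2) * (-(N : ℝ)) + θ * (1 / (z - θ)))) +
      ENNReal.ofReal ((0 * N + 1) *
        Real.exp (θ * (ε / 2) * (-(N : ℝ)) + θ * (1 / (1 - z - θ))))) atTop (𝓝 0) := by
    have l1 := h38_lim (c := s * (ε' / 2)) (by positivity) 0 1 0
    have l2 := h38_lim (c := θ * δ₁) (by positivity) a 1 (θ * C₁)
    have l3 := h38_lim (c := θ * δ₂) (by positivity) b 1 (θ * C₂)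
    have l4 := h38_lim (c := θ * (ε / 2)) (by positivity) 0 1 (θ * (1 / (z - θ)))
    have l5 := h38_lim (c := θ * (ε / 2)) (by positivity) 0 1 (θ * (1 / (1 - z - θ)))
    simpa using ((((l1.add l1).add l2).add l3).add l4).add l5
  refine tendsto_of_tendsto_of_tendsto_of_le_of_le tendsto_const_nhds hlim
    (fun _ => zero_le) ?_
  intro N
  have hN : (0 : ℝ) ≤ N := Nat.cast_nonneg N
  obtain ⟨m, hm⟩ : ∃ m, m = ⌈a * N⌉₊ - 1 := ⟨_, rfl⟩
  obtain ⟨n, hn⟩ : ∃ n, n = ⌈b * N⌉₊ - 1 := ⟨_, rfl⟩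
  have hpt : pt a b N = (m, n) := by rw [pt, hm, hn]
  have hma : (m : ℝ) ≤ a * N := by rw [hm]; exact h38_ceil_le (by positivity)
  have hna : (n : ℝ) ≤ b * N := by rw [hn]; exact h38_ceil_le (by positivity)
  have hmb : a * N ≤ (m : ℝ) + 1 := by rw [hm]; exact h38_le_ceil _
  have hnb : b * N ≤ (n : ℝ) + 1 := by rw [hn]; exact h38_le_ceil _
  obtain ⟨k₀, hk₀⟩ : ∃ k₀, k₀ = ⌈κ * N⌉₊ := ⟨_, rfl⟩
  have hk1 : κ * N ≤ k₀ := by rw [hk₀]; exact Nat.le_ceil _
  have hk2 : (k₀ : ℝ) ≤ κ * N + 1 := by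
    rw [hk₀]; exact (Nat.ceil_lt_add_one (by positivity)).le
  have hY : (a / z - ε') * N + (b / (1 - z) - ε') * N = (shp a b - 2 * ε') * N := by
    rw [← hg]; ring
  have hE1 := hE z s θ hs0 hθ0 (by linarith) (by linarith) m n k₀ ((a / z - ε') * N)
    ((b / (1 - z) - ε') * N) ((ε - 2 * ε') * N)
  have hYc : (a / z - ε') * N + (b / (1 - z) - ε') * N - (ε - 2 * ε') * N =
      (shp a b - ε) * N := by
    rw [← hg]; ring
  rw [hYc] at hE1
  simp only [hpt]
  refine hE1.trans ?_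
  have t1 : Real.exp (s * ((a / z - ε') * N)) * (z / (z + s)) ^ (m + 1) ≤
      (0 * N + 1) * Real.exp (s * (ε' / 2) * (-(N : ℝ)) + 0) := by
    refine (h38_edge (a := a) (ε' := ε') hz0 hs0 hmb rfl (hs₁' s hs0 hsa1)).trans (le_of_eq ?_)
    rw [zero_mul, zero_add, one_mul, add_zero]
    congr 1
    ring
  have t2 : Real.exp (s * ((b / (1 - z) - ε') * N)) * ((1 - z) / (1 - z + s)) ^ (n + 1) ≤
      (0 * N + 1) * Real.exp (s * (ε' / 2) * (-(N : ℝ)) + 0) := by
    refine (h38_edge (a := b) (ε' := ε') h1z0 hs0 hnb rfl (hs₂' s hs0 hsa2)).trans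
      (le_of_eq ?_)
    rw [zero_mul, zero_add, one_mul, add_zero]
    congr 1
    ring
  have t5 : Real.exp (-(θ * ((ε - 2 * ε') * N))) * (z / (z - θ)) ^ k₀ ≤
      (0 * N + 1) * Real.exp (θ * (ε / 2) * (-(N : ℝ)) + θ * (1 / (z - θ))) := by
    refine (h38_near hz0 hθ0 (by linarith) hk2 hn1).trans (le_of_eq ?_)
    rw [zero_mul, zero_add, one_mul]
    congr 1
    ring
  have t6 : Real.exp (-(θ * ((ε - 2 * ε') * N))) * ((1 - z) / (1 - z - θ)) ^ k₀ ≤
      (0 * N + 1) * Real.exp (θ * (ε / 2) * (-(N : ℝ)) + θ * (1 / (1 - z - θ))) := by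
    refine (h38_near h1z0 hθ0 (by linarith) hk2 hn2).trans (le_of_eq ?_)
    rw [zero_mul, zero_add, one_mul]
    congr 1
    ring
  have t3 : ∑ k ∈ Finset.Ico k₀ (m + 1),
        ENNReal.ofReal (Real.exp (-(θ * ((a / z - ε') * N + (b / (1 - z) - ε') * N))) *
          (z / (z - θ)) ^ (k + 1)) * emom P X θ (0, 0) (m - k, n) ≤
      ENNReal.ofReal ((a * N + 1) * Real.exp (θ * δ₁ * (-(N : ℝ)) + θ * C₁)) := by
    apply h38_sum (Real.exp_pos _).le (by linarith)
    intro k hk hkm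
    have hkk : κ * N ≤ (k : ℝ) := hk1.trans (by exact_mod_cast hk)
    have hmm : -shp a b + 2 * ε' + a / (z - η₁) + b / (1 - z + η₁ - θ) +
        κ * (1 / (z - θ) - 1 / (z - η₁)) ≤ -δ₁ := by rw [← hg]; linarith
    have key := h38_term_h hU (k := k) (m := m) (n := n) hθ0 (by linarith : θ < η₁) hη₁z hz1
      hma hna hkk hkm hY hmm
    rw [← hC₁] at key
    have e : θ * (-δ₁ * (N : ℝ) + C₁) = θ * δ₁ * (-(N : ℝ)) + θ * C₁ := by ring
    rw [e] at key
    exact key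
  have t4 : ∑ k ∈ Finset.Ico k₀ (n + 1),
        ENNReal.ofReal (Real.exp (-(θ * ((a / z - ε') * N + (b / (1 - z) - ε') * N))) *
          ((1 - z) / (1 - z - θ)) ^ (k + 1)) * emom P X θ (0, 0) (m, n - k) ≤
      ENNReal.ofReal ((b * N + 1) * Real.exp (θ * δ₂ * (-(N : ℝ)) + θ * C₂)) := by
    apply h38_sum (Real.exp_pos _).le (by linarith)
    intro k hk hkm
    have hkk : κ * N ≤ (k : ℝ) := hk1.trans (by exact_mod_cast hk)
    have hmm : -shp a b + 2 * ε' + b / (1 - z - η₂) + a / (1 - (1 - z) + η₂ - θ) +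
        κ * (1 / (1 - z - θ) - 1 / (1 - z - η₂)) ≤ -δ₂ := by
      rw [← hg]
      have e : a / (1 - (1 - z)) = a / z := by rw [sub_sub_cancel]
      rw [e] at hm2
      linarith
    have key := h38_term_v hU (k := k) (m := n) (n := m) hθ0 (by linarith : θ < η₂) hη₂z
      (by linarith : 1 - z < 1) hna hma hkk hkm hY hmm
    rw [← hC₂] at key
    have e : θ * (-δ₂ * (N : ℝ) + C₂) = θ * δ₂ * (-(N : ℝ)) + θ * C₂ := by ring
    rw [e] at key
    exact key
  exact add_le_add (add_le_add (add_le_add (add_le_add (add_le_add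
    (ENNReal.ofReal_le_ofReal t1) (ENNReal.ofReal_le_ofReal t2)) t3) t4)
    (ENNReal.ofReal_le_ofReal t5)) (ENNReal.ofReal_le_ofReal t6)

/-- the weak law of large numbers, lower side -/
theorem weak_lln [IsProbabilityMeasure P] (h : IsExpField P X) {a b : ℝ} (ha : 0 < a)
    (hb : 0 < b) {ε : ℝ} (hε : 0 < ε) :
    Tendsto (fun N : ℕ => P {ω | lp (fun w => X w ω) (0, 0) (pt a b N) ≤ (shp a b - ε) * N})
      atTop (𝓝 0) := by
  refine h38_weak_lln_of ?_ ?_ ha hb hε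
  · intro z w hz hzw hw m n
    have := mgf_upper h hz hzw hw (0, 0) m n
    simpa using this
  · intro z s θ hs hθ hθz hθz1 m n k₀ y₁ y₂ c
    exact prob_exit h hs hθ hθz hθz1 m n k₀ y₁ y₂ c

end Helper97.LPP
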